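import Pool.Agent.Helper34.BIC.Unif
import Pool.Agent.Helper34.BIC.Tutte
import Pool.Agent.Helper11.ISO

/-!
# Rank calculus for minors, connectivity of blocks (helper53, for MP_5165fa_co)
-/

open Set
open scoped Matroid

namespace BIC

namespace BQ

variable {α : Type*} {M : Matroid α}

lemma fin_contract [M.Finite] (C : Set α) : (M ／ C).Finite :=
  ⟨M.ground_finite.subset (M.contract_ground_subset_ground C)⟩

lemma fin_delete [M.Finite] (C : Set α) : (M ＼ C).Finite :=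
  ⟨M.ground_finite.subset (by rw [Matroid.delete_ground]; exact sdiff_subset)⟩

/-- Rank in a contraction. -/
lemma rk_con [M.Finite] {C X : Set α} (hC : C ⊆ M.E) (hX : X ⊆ M.E \ C) :
    rk (M ／ C) X + rk M C = rk M (X ∪ C) := by
  obtain ⟨J, hJ⟩ := M.exists_isBasis C
  obtain ⟨I, hI, hJI⟩ := hJ.indep.subset_isBasis_of_subset
    (hJ.subset.trans (subset_union_right : C ⊆ X ∪ C))
    (union_subset (hX.trans sdiff_subset) hC)
  have h1 : M.Indep (I \ C ∪ J) := hI.indep.subset (union_subset sdiff_subset hJI)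
  have h2 := hI.contract_isBasis hJ h1
  have h3 : (X ∪ C) \ C = X := by
    ext x
    constructor
    · rintro ⟨a | a, b⟩
      · exact a
      · exact absurd a b
    · intro a
      exact ⟨Or.inl a, (hX a).2⟩
  rw [h3] at h2
  have h4 : I ∩ C = J := by
    have : M.Indep (I ∩ C) := hI.indep.subset inter_subset_left
    exact (hJ.eq_of_subset_indep this (subset_inter hJI hJ.subset) inter_subset_right).symm
  have hIf : I.Finite := M.ground_finite.subset hI.indep.subset_ground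
  have e1 : rk (M ／ C) X = (I \ C).ncard := by
    unfold rk
    rw [← h2.encard_eq_eRk]; rfl
  have e2 : rk M C = J.ncard := by
    unfold rk
    rw [← hJ.encard_eq_eRk]; rfl
  have e3 : rk M (X ∪ C) = I.ncard := by
    unfold rk
    rw [← hI.encard_eq_eRk]; rfl
  have e4 := Set.ncard_inter_add_ncard_sdiff_eq_ncard I C hIf
  rw [h4] at e4
  omega

lemma rk_rest (X : Set α) (h : X ⊆ M.E) (Y : Set α) (hX : X ⊆ Y) : rk (M ↾ Y) X = rk M X := by
  unfold rk
  rw [Matroid.restrict_eRk_eq M hX]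

/-- Connectivity does not increase in the minor `(M ／ C) | E₁`. -/
lemma conn_minor [M.Finite] {C E₁ A : Set α} (hC : C ⊆ M.E) (hE : E₁ ⊆ M.E \ C)
    (hA : A ⊆ M.E) :
    rk (M ／ C) (E₁ ∩ A) + rk (M ／ C) (E₁ \ A) + rk M M.E ≤
      rk (M ／ C) E₁ + (rk M A + rk M (M.E \ A)) := by
  have e1 := rk_con hC (X := E₁ ∩ A) (inter_subset_left.trans hE)
  have e2 := rk_con hC (X := E₁ \ A) (sdiff_subset.trans hE)
  have e3 := rk_con hC hE
  -- put `F = E₁ ∪ C`
  have s1 := rk_submod M A (E₁ ∪ C)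
  have s2 := rk_submod M (A ∪ (E₁ ∪ C)) (M.E \ A)
  have t1 : (A ∪ (E₁ ∪ C)) ∪ (M.E \ A) = M.E := by
    apply Subset.antisymm
    · refine union_subset (union_subset hA (union_subset (hE.trans sdiff_subset) hC)) sdiff_subset
    · intro x hx
      by_cases h : x ∈ A
      · exact Or.inl (Or.inl h)
      · exact Or.inr ⟨hx, h⟩
  rw [t1] at s2
  -- now bound the ranks of the intersections from below
  have s3 := rk_submod M (A ∩ (E₁ ∪ C)) C
  have s4 := rk_submod M ((A ∪ (E₁ ∪ C)) ∩ (M.E \ A)) (A ∩ C)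
  have t3 : (E₁ ∩ A) ∪ C = (A ∩ (E₁ ∪ C)) ∪ C := by
    ext x; simp only [mem_union, mem_inter_iff]; tauto
  have t4 : (A ∩ (E₁ ∪ C)) ∩ C = A ∩ C := by
    ext x; simp only [mem_union, mem_inter_iff]; tauto
  have t5 : (E₁ \ A) ∪ C ⊆ ((A ∪ (E₁ ∪ C)) ∩ (M.E \ A)) ∪ (A ∩ C) := by
    rintro x (⟨h1, h2⟩ | h)
    · exact Or.inl ⟨Or.inr (Or.inl h1), (hE h1).1, h2⟩
    · by_cases h3 : x ∈ A
      · exact Or.inr ⟨h3, h⟩
      · exact Or.inl ⟨Or.inr (Or.inr h), hC h, h3⟩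
  have m5 := rk_mono M t5
  rw [t4] at s3
  rw [t3] at e1
  omega

/-- **Connectivity of a block.** -/
theorem kge_block {V : Type*} [M.Finite] {C E₁ Z : Set α} {ends : α → Sym2 V} {n : ℕ}
    {p : ℕ → ℕ → V} {hE vE : ℕ → ℕ → α} (hC : C ⊆ M.E \ E₁) (hE₁ : E₁ ⊆ M.E)
    (hEZ : Disjoint E₁ Z) (hB : Bic (M ／ C) E₁ ends) (hG : IsGrid E₁ ends n p hE vE)
    {t r c s : ℕ} (hr : r + s ≤ n) (hc : c + s ≤ n) (hs : 4 * (t + 1) < s)
    (h : KGe M E₁ Z (t + 32 * (t + 1) ^ 2 + 1)) : KGe M (GBlk hE vE r c s) Z (t + 1) := by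
  intro X hX1 hX2
  by_contra hcon
  push Not at hcon
  have hXE : X ⊆ M.E := hX2.trans sdiff_subset
  have hC' : C ⊆ M.E := hC.trans sdiff_subset
  have hE' : E₁ ⊆ M.E \ C := fun x hx => ⟨hE₁ hx, fun h => (hC h).2 hx⟩
  have h1 := conn_minor hC' hE' hXE
  have hfin := fin_contract (M := M) C
  have hA : E₁ ∩ X ⊆ E₁ := inter_subset_left
  have e1 : E₁ \ (E₁ ∩ X) = E₁ \ X := by
    ext x; simp only [mem_sdiff, mem_inter_iff]; tauto
  have hblk : GBlk hE vE r c s ⊆ E₁ ∩ X := by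
    intro x hx
    refine ⟨?_, hX1 hx⟩
    rcases hx with ⟨i, j, _, _, _, _, rfl⟩ | ⟨i, j, _, _, _, _, rfl⟩
    · exact (hG.hmem (by omega) (by omega)).1
    · exact (hG.vmem (by omega) (by omega)).1
  obtain ⟨DR, DC, _, _, _, h5⟩ := grid_iso_block hB hG hA (t := t) (by rw [e1]; omega) hr hc hs hblk
  rw [e1] at h5
  have hX' := h (X ∪ E₁) subset_union_right (by
    rintro x (hx | hx)
    · exact hX2 hx
    · exact ⟨hE₁ hx, Set.disjoint_left.1 hEZ hx⟩)
  have hf : (E₁ \ X).Finite := M.ground_finite.subset (sdiff_subset.trans hE₁)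
  have h6 : rk M (X ∪ E₁) ≤ rk M X + (E₁ \ X).ncard := by
    have := rk_union_le M (X := X) (Y := E₁ \ X) hf
    rwa [show X ∪ (E₁ \ X) = X ∪ E₁ by rw [union_sdiff_self]] at this
  have h7 : rk M (M.E \ (X ∪ E₁)) ≤ rk M (M.E \ X) :=
    rk_mono M (sdiff_subset_sdiff_right subset_union_left)
  omega

end BQ

end BIC
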