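import Pool.Agent.BICS.Iso
import Pool.Agent.BICS.Base
import Pool.Agent.Helper53.BQ.Rk
import Pool.Agent.Helper57.TB.Red

/-!
# Connectivity between sets: blocks, removal of small sets, duals (helper53, MP_5165fa_co)
-/

open Set BIC
open scoped Matroid

namespace BIC

namespace BQ

variable {α : Type*} {M : Matroid α}

lemma KGe.mono_n {S T : Set α} {n m : ℕ} (h : KGe M S T n) (hm : m ≤ n) : KGe M S T m :=
  fun X h1 h2 => by
    have := h X h1 h2
    omega

lemma KGe.mono_left {S S' T : Set α} {n : ℕ} (h : KGe M S T n) (hS : S ⊆ S') : KGe M S' T n :=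
  fun X h1 h2 => h X (hS.trans h1) h2

lemma KGe.mono_right {S T T' : Set α} {n : ℕ} (h : KGe M S T n) (hT : T ⊆ T') : KGe M S T' n :=
  fun X h1 h2 => h X h1 (h2.trans (sdiff_subset_sdiff_right hT))

/-- Connectivity of a block, in the form of a rectangle of vertices. -/
theorem kge_blk [M.Finite] {C E₁ Z : Set α} {ends : α → Sym2 (ℕ × ℕ)} {x y n : ℕ}
    (hC : C ⊆ M.E \ E₁) (hE₁ : E₁ ⊆ M.E)
    (hEZ : Disjoint E₁ Z) (hB : Bic (M ／ C) E₁ ends) (hG : BICS.Grd E₁ ends x y n n)
    {t a b s : ℕ} (hr : BICS.rect a b s s ⊆ BICS.rect x y n n) (hs : 4 * (t + 1) < s)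
    (h : KGe M E₁ Z (t + 32 * (t + 1) ^ 2 + 1)) : KGe M (BICS.blk E₁ ends a b s) Z (t + 1) := by
  intro X hX1 hX2
  by_contra hcon
  push Not at hcon
  have hXE : X ⊆ M.E := hX2.trans sdiff_subset
  have hC' : C ⊆ M.E := hC.trans sdiff_subset
  have hE' : E₁ ⊆ M.E \ C := fun x hx => ⟨hE₁ hx, fun h => (hC h).2 hx⟩
  have h1 := conn_minor hC' hE' hXE
  have hfin := fin_contract (M := M) C
  have hA : E₁ ∩ X ⊆ E₁ := inter_subset_left
  have e1 : E₁ \ (E₁ ∩ X) = E₁ \ X := by
    ext x; simp only [mem_sdiff, mem_inter_iff]; tauto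
  have hblk : BICS.blk E₁ ends a b s ⊆ E₁ ∩ X := fun x hx => ⟨hx.1, hX1 hx⟩
  have h5 := BICS.iso' (j := t) hB hG hA hs hr hblk (by rw [e1]; omega)
  rw [e1] at h5
  have hX' := h (X ∪ E₁) subset_union_right (by
    rintro x (hx | hx)
    · exact hX2 hx
    · exact ⟨hE₁ hx, Set.disjoint_left.1 hEZ hx⟩)
  have hf : (E₁ \ X).Finite := M.ground_finite.subset (sdiff_subset.trans hE₁)
  have h6 : rk M (X ∪ E₁) ≤ rk M X + (E₁ \ X).ncard := by
    have := rk_union_le M (X := X) (Y := E₁ \ X) hf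
    rwa [show X ∪ (E₁ \ X) = X ∪ E₁ by rw [union_sdiff_self]] at this
  have h7 : rk M (M.E \ (X ∪ E₁)) ≤ rk M (M.E \ X) :=
    rk_mono M (sdiff_subset_sdiff_right subset_union_left)
  omega

/-- Contracting a small set. -/
lemma kge_contract [M.Finite] {S T Z : Set α} {n : ℕ} (hZ : Z ⊆ M.E \ (S ∪ T))
    (h : KGe M S T (n + Z.ncard)) : KGe (M ／ Z) S T n := by
  intro X hX1 hX2
  rw [Matroid.contract_ground] at hX2 ⊢
  have hZE : Z ⊆ M.E := hZ.trans sdiff_subset
  have hZf : Z.Finite := M.ground_finite.subset hZE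
  have hXE : X ⊆ M.E \ Z := hX2.trans sdiff_subset
  have e1 := rk_con hZE hXE
  have e2 := rk_con hZE (X := (M.E \ Z) \ X) sdiff_subset
  have e3 := rk_con hZE (X := M.E \ Z) (subset_refl _)
  have e4 : (M.E \ Z) ∪ Z = M.E := by
    rw [sdiff_union_self, union_eq_self_of_subset_right hZE]
  rw [e4] at e3
  have h1 := h X hX1 (by
    intro x hx
    exact ⟨(hXE hx).1, (hX2 hx).2⟩)
  have h2 : rk M X ≤ rk M (X ∪ Z) := rk_mono M subset_union_left
  have h3 : rk M (M.E \ X) ≤ rk M (((M.E \ Z) \ X) ∪ Z) := by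
    refine rk_mono M ?_
    intro x hx
    by_cases hz : x ∈ Z
    · exact Or.inr hz
    · exact Or.inl ⟨⟨hx.1, hz⟩, hx.2⟩
  have h4 : rk M Z ≤ Z.ncard := rk_le_ncard M hZf
  omega

/-- Deleting a small set. -/
lemma kge_delete [M.Finite] {S T Z : Set α} {n : ℕ} (hS : S ⊆ M.E) (hT : T ⊆ M.E)
    (hZ : Z ⊆ M.E \ (S ∪ T)) (h : KGe M S T (n + Z.ncard)) : KGe (M ＼ Z) S T n := by
  have h1 := h.dual hS
  have h2 : KGe (M✶ ／ Z) T S n := by
    refine kge_contract (by rw [Matroid.dual_ground, union_comm]; exact hZ) h1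
  rw [← Matroid.dual_delete] at h2
  have hfin := fin_delete (M := M) Z
  have h3 := KGe.dual (M := (M ＼ Z)✶) h2 (by
    rw [Matroid.dual_ground, Matroid.delete_ground]
    exact fun x hx => ⟨hT hx, fun hz => (hZ hz).2 (Or.inr hx)⟩)
  rwa [Matroid.dual_dual] at h3

/-- Removing a small part of the left set. -/
lemma kge_left [M.Finite] {S Z T : Set α} {n : ℕ} (hZ : Z ⊆ M.E \ T)
    (h : KGe M (S ∪ Z) T (n + Z.ncard)) : KGe M S T n := by
  intro X hX1 hX2
  have hZf : Z.Finite := M.ground_finite.subset (hZ.trans sdiff_subset)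
  have h1 := h (X ∪ Z) (union_subset_union_left _ hX1) (union_subset hX2 hZ)
  have h2 := rk_union_le M (X := X) hZf
  have h3 : rk M (M.E \ (X ∪ Z)) ≤ rk M (M.E \ X) :=
    rk_mono M (sdiff_subset_sdiff_right subset_union_left)
  omega

/-- the connectivity is at most the rank -/
lemma kge_le_rk [M.Finite] {S T : Set α} {n : ℕ} (hS : S ⊆ M.E) (hST : Disjoint S T)
    (h : KGe M S T n) : n ≤ rk M S := by
  have h1 := h S (subset_refl _) (fun x hx => ⟨hS hx, Set.disjoint_left.1 hST hx⟩)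
  have h2 : rk M (M.E \ S) ≤ rk M M.E := rk_mono M sdiff_subset
  omega

/-- the exact value of the connectivity -/
lemma kge_exact [M.Finite] {S T : Set α} {n : ℕ} (hS : S ⊆ M.E) (hST : Disjoint S T)
    (h : KGe M S T n) : ∃ b, n ≤ b ∧ b ≤ rk M S ∧ KGe M S T b ∧ ¬ KGe M S T (b + 1) := by
  classical
  have hex : ∃ b, n ≤ b ∧ ¬ KGe M S T (b + 1) := by
    by_contra hno
    push Not at hno
    have : ∀ b, n ≤ b → KGe M S T (b + 1) := fun b hb => hno b hb
    have h1 := kge_le_rk hS hST (this (n + rk M S) (by omega))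
    omega
  refine ⟨Nat.find hex, (Nat.find_spec hex).1, ?_, ?_, (Nat.find_spec hex).2⟩
  · by_cases h0 : Nat.find hex = n
    · rw [h0]; exact kge_le_rk hS hST h
    · have h1 : n ≤ Nat.find hex - 1 := by
        have := (Nat.find_spec hex).1
        omega
      have h2 := Nat.find_min hex (m := Nat.find hex - 1) (by omega)
      push Not at h2
      have h3 := h2 h1
      have h4 := kge_le_rk hS hST h3
      omega
  · by_cases h0 : Nat.find hex = n
    · rw [h0]; exact h
    · have h1 : n ≤ Nat.find hex - 1 := by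
        have := (Nat.find_spec hex).1
        omega
      have h2 := Nat.find_min hex (m := Nat.find hex - 1) (by omega)
      push Not at h2
      have h3 := h2 h1
      have e : Nat.find hex - 1 + 1 = Nat.find hex := by
        have := (Nat.find_spec hex).1
        omega
      rwa [e] at h3

end BQ

end BIC
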