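import Pool.Agent.BICS.Clean
import Pool.Agent.BICS.A2
import Pool.Agent.Helper53.BQ.Kge

/-!
# Theorem B_q: one side of bounded defect, the other side an arbitrary minor (helper53)
-/

open Set BIC
open scoped Matroid

namespace BICS

universe u

/-- `side3` for all large grids -/
theorem side3' (k c t : ℕ) : ∃ m : ℕ, ∀ {α : Type u} (L N : Matroid α) [L.Finite] [N.Finite]
    (S : Set α) (ends : α → Sym2 (ℕ × ℕ)) (x y n : ℕ), m ≤ n → S ⊆ L.E → Bic N S ends →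
    Grd S ends x y n n → Quo L N S → rk L S ≤ rk N S + c →
    HasUniformMinor L k ∨ ∃ Z ⊆ S, Z.ncard ≤ 12 * k ∧ ∃ a b, rect a b t t ⊆ rect x y n n ∧
      Disjoint Z (blk S ends a b t) ∧
      ∀ X ⊆ blk S ends a b t, rk L (X ∪ Z) = rk N X + rk L Z := by
  obtain ⟨m, hm⟩ := side3.{u} k c t
  refine ⟨m, ?_⟩
  intro α L N _ _ S ends x y n hmn hSL hB hG hQ hc
  have hsub : rect x y m m ⊆ rect x y n n := rect_sub (le_refl _) (by omega) (le_refl _) (by omega)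
  have hSS : blk S ends x y m ⊆ S := blk_sub
  have h1 := hQ (blk S ends x y m) S hSS (subset_refl _)
  rcases hm L N (blk S ends x y m) ends x y (hSS.trans hSL) (Bic_sub hB hSS) (Grd_sub hG hsub)
    (fun X Y hXY hY => hQ X Y hXY (hY.trans hSS)) (by omega) with h | ⟨Z, hZ, hZc, a, b, hr, hd, hX⟩
  · exact Or.inl h
  · right
    rw [blk_blk hr] at hd hX
    exact ⟨Z, hZ.trans hSS, hZc, a, b, hr.trans hsub, hd, hX⟩

lemma quo_contract {α : Type*} {M : Matroid α} [M.Finite] {C E : Set α} (hC : C ⊆ M.E)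
    (hE : E ⊆ M.E \ C) : Quo M (M ／ C) E := by
  intro X Y hXY hY
  have e1 := BQ.rk_con hC (hY.trans hE)
  have e2 := BQ.rk_con hC ((hXY.trans hY).trans hE)
  have s := rk_submod M Y (X ∪ C)
  have h1 : rk M X ≤ rk M (Y ∩ (X ∪ C)) :=
    rk_mono M (fun x hx => ⟨hXY hx, Or.inl hx⟩)
  have h2 : Y ∪ (X ∪ C) = Y ∪ C := by
    rw [← union_assoc, union_eq_self_of_subset_right hXY]
  rw [h2] at s
  omega

lemma rect_encard (a b s t : ℕ) : (rect a b s t).encard ≤ (s * t : ℕ) := by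
  have h : rect a b s t ⊆ ((((Finset.range s) ×ˢ (Finset.range t)).image
      (fun p => ((a + p.1, b + p.2) : ℕ × ℕ)) : Finset (ℕ × ℕ)) : Set (ℕ × ℕ)) := by
    rintro ⟨p, q⟩ ⟨h1, h2, h3, h4⟩
    simp only at h1 h2 h3 h4
    refine Finset.mem_coe.2 (Finset.mem_image.2 ⟨(p - a, q - b), ?_, ?_⟩)
    · rw [Finset.mem_product, Finset.mem_range, Finset.mem_range]
      exact ⟨by simp only; omega, by simp only; omega⟩
    · simp only [Prod.mk.injEq]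
      omega
  refine (Set.encard_le_encard h).trans ?_
  rw [Set.encard_coe_eq_coe_finsetCard]
  have h2 := Finset.card_image_le (s := (Finset.range s) ×ˢ (Finset.range t))
    (f := fun p => ((a + p.1, b + p.2) : ℕ × ℕ))
  rw [Finset.card_product, Finset.card_range, Finset.card_range] at h2
  exact_mod_cast h2

lemma rk_blk_le {α : Type*} {N : Matroid α} [N.Finite] {S : Set α} {ends : α → Sym2 (ℕ × ℕ)}
    (hB : Bic N S ends) (a b s : ℕ) : rk N (blk S ends a b s) ≤ s * s := by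
  have h := (hB.rk (rect a b s s)).trans (rect_encard a b s s)
  rw [← cast_rk] at h
  exact_mod_cast h

lemma hum_mono {α : Type*} {M M' : Matroid α} {k : ℕ} (h : M' ≤m M) (h' : HasUniformMinor M' k) :
    HasUniformMinor M k := by
  obtain ⟨N, a, b⟩ := h'
  exact ⟨N, a.trans h, b⟩

lemma hum_dual {α : Type*} {M : Matroid α} [M.Finite] {k : ℕ} (h : HasUniformMinor M✶ k) :
    HasUniformMinor M k := by
  obtain ⟨N, a, b, c⟩ := h
  refine ⟨N✶, ?_, by rw [Matroid.dual_ground]; exact b, ?_⟩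
  · have := minor_dual a
    rwa [Matroid.dual_dual] at this
  · intro B
    have hf : N.E.Finite := M.ground_finite.subset (by
      have := a.subset
      rwa [Matroid.dual_ground] at this)
    rw [Matroid.dual_ground]
    constructor
    · intro hB
      have hBE : B ⊆ N.E := by
        have := hB.subset_ground
        rwa [Matroid.dual_ground] at this
      refine ⟨hBE, ?_⟩
      rw [Matroid.dual_isBase_iff hBE] at hB
      have h1 := ((c _).1 hB).2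
      have h2 := Set.ncard_sdiff_add_ncard_of_subset hBE hf
      omega
    · rintro ⟨hBE, hBc⟩
      rw [Matroid.dual_isBase_iff hBE, c]
      refine ⟨sdiff_subset, ?_⟩
      have h2 := Set.ncard_sdiff_add_ncard_of_subset hBE hf
      omega

/-- ranks of subsets of `W` after contracting `Z` -/
lemma rk_con_of {α : Type*} {L N : Matroid α} [L.Finite] {Z W : Set α} (hZ : Z ⊆ L.E)
    (hW : W ⊆ L.E) (hd : Disjoint Z W) (h : ∀ X ⊆ W, rk L (X ∪ Z) = rk N X + rk L Z)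
    {X : Set α} (hX : X ⊆ W) : rk (L ／ Z) X = rk N X := by
  have h1 := BQ.rk_con hZ (X := X)
    (fun x hx => ⟨hW (hX hx), fun hz => Set.disjoint_left.1 hd hz (hX hx)⟩)
  have h2 := h X hX
  omega

/-- **Theorem B_q.**  `N₁ = (M ／ C₁) | E₁` is the bicircular matroid of a plain grid and of bounded
defect in `M`, `N₂✶ = (M✶ ／ D₂) | E₂` is the bicircular matroid of a plain grid. -/
theorem thmBq (k : ℕ) (hk : 1 ≤ k) : ∃ K y₀ : ℕ, ∀ q : ℕ, ∃ n₀ : ℕ, ∀ n n' : ℕ, n₀ ≤ n →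
    y₀ ≤ n' → ∀ {α : Type u} (M : Matroid α) [M.Finite] (E₁ E₂ C₁ D₂ : Set α)
    (e₁ e₂ : α → Sym2 (ℕ × ℕ)) (x y x' y' : ℕ), E₁ ⊆ M.E → E₂ ⊆ M.E → Disjoint E₁ E₂ →
    C₁ ⊆ M.E \ E₁ → D₂ ⊆ M.E \ E₂ → Bic (M ／ C₁) E₁ e₁ → Grd E₁ e₁ x y n n →
    Bic (M✶ ／ D₂) E₂ e₂ → Grd E₂ e₂ x' y' n' n' → rk M E₁ ≤ rk (M ／ C₁) E₁ + q →
    KGe M E₁ E₂ K → HasUniformMinor M k := by
  obtain ⟨nA, h, N₀, hh, hA2⟩ := thmA2.{u} k hk
  set t2 := nA + 24 * k with ht2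
  set t1 := t2 + 32 * (t2 + 1) ^ 2 + 12 * k with ht1
  set N1 := N₀ + 4 * (t1 + 1) + 1 with hN1
  set w := 2 * h * N1 with hw
  have hw1 : N1 ≤ w := Nat.le_mul_of_pos_left _ (by omega)
  have hw2 : 4 * (t1 + 1) < w := by omega
  have hw3 : 4 * (t2 + 1) < w := by omega
  obtain ⟨m2, hm2⟩ := side3'.{u} k (w * w + 12 * k) w
  refine ⟨t1 + 32 * (t1 + 1) ^ 2 + 1, m2, ?_⟩
  intro q
  obtain ⟨m1, hm1⟩ := side3'.{u} k q w
  refine ⟨m1, ?_⟩
  intro n n' hn hn' α M _ E₁ E₂ C₁ D₂ e₁ e₂ x y x' y' hE₁ hE₂ hE hC₁ hD₂ hB₁ hG₁ hB₂ hG₂ hq hK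
  have hC₁E : C₁ ⊆ M.E := hC₁.trans sdiff_subset
  have hE₁C : E₁ ⊆ M.E \ C₁ := fun x hx => ⟨hE₁ hx, fun h => (hC₁ h).2 hx⟩
  have fin1 : (M ／ C₁).Finite := BQ.fin_contract C₁
  -- side 1: clean
  rcases hm1 M (M ／ C₁) E₁ e₁ x y n hn hE₁ hB₁ hG₁ (quo_contract hC₁E hE₁C) hq with
    hU | ⟨Z, hZ, hZc, a, b, hrec, hdZ, hZX⟩
  · exact hU
  set W := blk E₁ e₁ a b w with hWdef
  have hWE₁ : W ⊆ E₁ := blk_sub
  have hZE : Z ⊆ M.E := hZ.trans hE₁
  have hWE : W ⊆ M.E := hWE₁.trans hE₁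
  -- connectivity of `W` and `E₂`
  have hK1 : KGe M W E₂ (t1 + 1) := BQ.kge_blk hC₁ hE₁ hE hB₁ hG₁ hrec hw2 hK
  have hK2 : KGe M (W ∪ Z) E₂ (t1 + 1) := BQ.KGe.mono_left hK1 subset_union_left
  have hWZE : W ∪ Z ⊆ M.E := union_subset hWE hZE
  have hWZd : Disjoint (W ∪ Z) E₂ := by
    rw [Set.disjoint_left]
    rintro z (hz | hz) hz2
    · exact Set.disjoint_left.1 hE (hWE₁ hz) hz2
    · exact Set.disjoint_left.1 hE (hZ hz) hz2
  obtain ⟨β, hβ1, hβ2, hβ3, hβ4⟩ := BQ.kge_exact hWZE hWZd hK2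
  have hZf : Z.Finite := M.ground_finite.subset hZE
  have hβ : β ≤ w * w + 12 * k := by
    have h1 := hZX W (subset_refl _)
    have h2 := rk_blk_le hB₁ a b w
    have h3 := rk_le_ncard M hZf
    rw [← hWdef] at h2
    omega
  -- fixed sets processing
  obtain ⟨M₂, D₂', hMm, fin2, hWZ2, hE₂2, hD₂', hres, hlam, hK3, hN2⟩ :=
    fixset hWZE hE₂ hWZd hD₂ hβ3 hβ4
  have hD₂E : D₂ ⊆ M.E := hD₂.trans sdiff_subset
  have hD₂'E : D₂' ⊆ M₂.E := hD₂'.trans sdiff_subset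
  have fin1' : (M✶ ／ D₂).Finite := BQ.fin_contract D₂
  have fin2' : (M₂✶ ／ D₂').Finite := BQ.fin_contract D₂'
  have hE₂D : E₂ ⊆ M₂✶.E \ D₂' := fun x hx => ⟨hE₂2 hx, fun h => (hD₂' h).2 hx⟩
  have hr2 : ∀ X ⊆ E₂, rk (M₂✶ ／ D₂') X = rk (M✶ ／ D₂) X := by
    intro X hX
    have h1 : rk ((M₂✶ ／ D₂') ↾ E₂) X = rk ((M✶ ／ D₂) ↾ E₂) X := by rw [hN2]
    unfold BIC.rk at h1 ⊢
    rwa [Matroid.restrict_eRk_eq _ hX, Matroid.restrict_eRk_eq _ hX] at h1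
  have hB₂' : Bic (M₂✶ ／ D₂') E₂ e₂ := Bic_of_rk hB₂ hE₂D hr2
  -- the defect of side 2
  have hdef : rk M₂✶ E₂ ≤ rk (M₂✶ ／ D₂') E₂ + (w * w + 12 * k) := by
    have h1 := BQ.rk_con (M := M₂✶) (C := D₂') (by exact hD₂'E) hE₂D
    have h2 := rk_dual (M := M₂) (X := E₂) hE₂2
    have h3 := rk_dual (M := M₂) (X := M₂.E \ E₂) sdiff_subset
    have h4 := rk_dual (M := M₂) (X := M₂.E) (subset_refl _)
    rw [sdiff_sdiff_cancel_left hE₂2] at h3
    have h5 : rk M₂ (M₂.E \ M₂.E) = 0 := by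
      rw [sdiff_self]
      have : rk M₂ (∅ : Set α) ≤ (∅ : Set α).ncard := rk_le_ncard M₂ finite_empty
      simpa using this
    have h6 := Set.ncard_sdiff_add_ncard_of_subset hE₂2 M₂.ground_finite
    have h7 : rk M₂✶ D₂' ≤ rk M₂✶ (M₂.E \ E₂) := rk_mono M₂✶ hD₂'
    have h8 := rk_submod M₂✶ (E₂ ∪ D₂') (M₂.E \ E₂)
    have h9 : (E₂ ∪ D₂') ∪ (M₂.E \ E₂) = M₂.E := by
      apply Subset.antisymm
      · exact union_subset (union_subset hE₂2 hD₂'E) sdiff_subset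
      · intro z hz
        by_cases hz2 : z ∈ E₂
        · exact Or.inl (Or.inl hz2)
        · exact Or.inr ⟨hz, hz2⟩
    have h10 : rk M₂✶ D₂' ≤ rk M₂✶ ((E₂ ∪ D₂') ∩ (M₂.E \ E₂)) :=
      rk_mono M₂✶ (fun z hz => ⟨Or.inr hz, hD₂' hz⟩)
    rw [h9] at h8
    omega
  -- side 2: clean
  rcases hm2 M₂✶ (M₂✶ ／ D₂') E₂ e₂ x' y' n' hn' (by exact hE₂2) hB₂' hG₂
    (quo_contract (by exact hD₂'E) hE₂D) hdef with hU | ⟨Z', hZ', hZc', a', b', hrec', hdZ', hZX'⟩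
  · exact hum_mono hMm (hum_dual hU)
  set W' := blk E₂ e₂ a' b' w with hWdef'
  have hWE₂ : W' ⊆ E₂ := blk_sub
  have hW2 : W ⊆ M₂.E := subset_union_left.trans hWZ2
  have hZ2 : Z ⊆ M₂.E := subset_union_right.trans hWZ2
  have hW'2 : W' ⊆ M₂.E := hWE₂.trans hE₂2
  have hZ'2 : Z' ⊆ M₂.E := hZ'.trans hE₂2
  -- disjointness
  have dWE : Disjoint W E₂ := hWZd.mono_left subset_union_left
  have dZE : Disjoint Z E₂ := hWZd.mono_left subset_union_right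
  have dWW' : Disjoint W W' := dWE.mono_right hWE₂
  -- connectivity
  have hZf' : Z'.Finite := M₂.ground_finite.subset hZ'2
  have k1 : KGe M₂ W E₂ (t2 + 32 * (t2 + 1) ^ 2 + 1) := by
    refine BQ.kge_left (Z := Z) (fun z hz => ⟨hZ2 hz, Set.disjoint_left.1 dZE hz⟩) ?_
    exact BQ.KGe.mono_n hK3 (by omega)
  have k2 : KGe M₂✶ E₂ W (t2 + 32 * (t2 + 1) ^ 2 + 1) := k1.dual hW2
  have k3 : KGe M₂✶ W' W (t2 + 1) := BQ.kge_blk (M := M₂✶) (by exact hD₂') (by exact hE₂2)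
    dWE.symm hB₂' hG₂ hrec' hw3 k2
  have k4 : KGe M₂ W W' (t2 + 1) := by
    have := k3.dual (by exact hW'2)
    rwa [Matroid.dual_dual] at this
  have k5 : KGe (M₂ ／ Z) W W' (nA + 12 * k) := by
    refine BQ.kge_contract (fun z hz => ⟨hZ2 hz, ?_⟩) (BQ.KGe.mono_n k4 (by omega))
    rintro (hz2 | hz2)
    · exact Set.disjoint_left.1 hdZ hz hz2
    · exact Set.disjoint_left.1 dZE hz (hWE₂ hz2)
  have fin3 : (M₂ ／ Z).Finite := BQ.fin_contract Z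
  have hW3 : W ⊆ (M₂ ／ Z).E := fun z hz => ⟨hW2 hz, fun h => Set.disjoint_left.1 hdZ h hz⟩
  have hW'3 : W' ⊆ (M₂ ／ Z).E := fun z hz =>
    ⟨hW'2 hz, fun h => Set.disjoint_left.1 dZE h (hWE₂ hz)⟩
  have k6 : KGe (M₂ ／ Z ＼ Z') W W' nA := by
    refine BQ.kge_delete hW3 hW'3 ?_ (BQ.KGe.mono_n k5 (by omega))
    intro z hz
    refine ⟨⟨hZ'2 hz, fun h => Set.disjoint_left.1 dZE h (hZ' hz)⟩, ?_⟩
    rintro (hz2 | hz2)
    · exact Set.disjoint_left.1 dWE hz2 (hZ' hz)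
    · exact Set.disjoint_left.1 hdZ' hz hz2
  have fin4 : (M₂ ／ Z ＼ Z').Finite := BQ.fin_delete Z'
  -- side 1 is a restriction
  have b1 : Bic (M₂ ／ Z ＼ Z') W e₁ := by
    refine Bic_of_rk (Bic_sub hB₁ hWE₁) ?_ ?_
    · intro z hz
      rw [Matroid.delete_ground]
      exact ⟨hW3 hz, fun h => Set.disjoint_left.1 dWE hz (hZ' h)⟩
    · intro X hX
      have h1 : X ⊆ (M₂ ／ Z).E \ Z' := fun z hz =>
        ⟨hW3 (hX hz), fun h => Set.disjoint_left.1 dWE (hX hz) (hZ' h)⟩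
      rw [rk_delete h1]
      refine rk_con_of hZ2 hW2 hdZ ?_ hX
      intro Y hY
      have h2 : rk M₂ (Y ∪ Z) = rk M (Y ∪ Z) := by
        have h3 : rk (M₂ ↾ (W ∪ Z)) (Y ∪ Z) = rk (M ↾ (W ∪ Z)) (Y ∪ Z) := by rw [hres]
        have h4 : Y ∪ Z ⊆ W ∪ Z := union_subset_union_left _ hY
        unfold BIC.rk at h3 ⊢
        rwa [Matroid.restrict_eRk_eq _ h4, Matroid.restrict_eRk_eq _ h4] at h3
      have h5 : rk M₂ Z = rk M Z := by
        have h3 : rk (M₂ ↾ (W ∪ Z)) Z = rk (M ↾ (W ∪ Z)) Z := by rw [hres]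
        have h4 : Z ⊆ W ∪ Z := subset_union_right
        unfold BIC.rk at h3 ⊢
        rwa [Matroid.restrict_eRk_eq _ h4, Matroid.restrict_eRk_eq _ h4] at h3
      rw [h2, h5]
      exact hZX Y hY
  -- side 2 is a contraction
  have b2 : Bic (M₂ ／ Z ＼ Z')✶ W' e₂ := by
    have hdual : (M₂ ／ Z ＼ Z')✶ = M₂✶ ／ Z' ＼ Z := by
      rw [Matroid.dual_delete, Matroid.dual_contract]
      have hdd : Disjoint Z' Z := by
        rw [Set.disjoint_left]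
        exact fun z hz hz2 => Set.disjoint_left.1 dZE hz2 (hZ' hz)
      rw [Matroid.contract_delete_comm M₂✶ hdd]
    have fin5 : (M₂✶ ／ Z').Finite := BQ.fin_contract Z'
    have fin6 : (M₂✶ ／ Z' ＼ Z).Finite := BQ.fin_delete Z
    rw [hdual]
    refine Bic_of_rk (Bic_sub hB₂' hWE₂) ?_ ?_
    · intro z hz
      refine ⟨⟨hW'2 hz, fun h => Set.disjoint_left.1 hdZ' h hz⟩, fun h =>
        Set.disjoint_left.1 dZE h (hWE₂ hz)⟩
    · intro X hX
      have h1 : X ⊆ (M₂✶ ／ Z').E \ Z := fun z hz =>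
        ⟨⟨hW'2 (hX hz), fun h => Set.disjoint_left.1 hdZ' h (hX hz)⟩,
          fun h => Set.disjoint_left.1 dZE h (hWE₂ (hX hz))⟩
      rw [rk_delete h1]
      exact rk_con_of (by exact hZ'2) (by exact hW'2) hdZ' hZX' hX
  have hA := hA2 N1 N1 (by omega) (by omega) (M₂ ／ Z ＼ Z') W W' e₁ e₂ a b a' b' dWW' b1
    (Grd_sub hG₁ hrec) b2 (Grd_sub hG₂ hrec') k6
  exact hum_mono ((Matroid.contract_delete_isMinor M₂ Z Z').trans hMm) hA

end BICS
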