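import Pool.Agent.BICS.Asm
import Pool.Agent.Helper57.TB.Cont
import Pool.Agent.Helper53.BQ.Bq

/-!
# Theorem W: few elements contracted for `N₁` and deleted for `N₂` (helper53)
-/

open Set BIC
open scoped Matroid

namespace BICS

universe u

lemma blk_ncard_le {α : Type*} {S : Set α} {ends : α → Sym2 (ℕ × ℕ)} (hinj : InjOn ends S)
    (a b s : ℕ) : (blk S ends a b s).ncard ≤ (s * s) * (s * s) := by
  classical
  have hfin : (rect a b s s).Finite := by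
    rw [← Set.encard_lt_top_iff]
    exact lt_of_le_of_lt (rect_encard a b s s) (ENat.natCast_lt_top _)
  have hc : (rect a b s s).ncard ≤ s * s := by
    have h := rect_encard a b s s
    rw [← hfin.cast_ncard_eq] at h
    exact_mod_cast h
  set T : Set (Sym2 (ℕ × ℕ)) := (fun p : (ℕ × ℕ) × (ℕ × ℕ) => s(p.1, p.2)) ''
    (rect a b s s ×ˢ rect a b s s) with hT
  have hTf : T.Finite := (hfin.prod hfin).image _
  have h1 : ends '' (blk S ends a b s) ⊆ T := by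
    rintro _ ⟨e, he, rfl⟩
    induction h : ends e with
    | _ p q =>
      refine ⟨(p, q), ⟨?_, ?_⟩, rfl⟩
      · exact he.2 p (by rw [h]; simp)
      · exact he.2 q (by rw [h]; simp)
  have h2 : (blk S ends a b s).ncard = (ends '' (blk S ends a b s)).ncard :=
    ((hinj.mono blk_sub).ncard_image).symm
  rw [h2]
  refine (Set.ncard_le_ncard h1 hTf).trans ?_
  refine (Set.ncard_image_le (hfin.prod hfin)).trans ?_
  rw [Set.ncard_prod]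
  exact Nat.mul_le_mul hc hc

/-- **Theorem W.** -/
theorem thmWp (k : ℕ) (hk : 1 ≤ k) (q : ℕ) : ∃ n₀ : ℕ, ∀ n ≥ n₀,
    ∀ {α : Type u} (M : Matroid α) [M.Finite] (E₁ E₂ C₁ D₂ : Set α)
    (e₁ e₂ : α → Sym2 (ℕ × ℕ)) (x y x' y' : ℕ), E₁ ⊆ M.E → E₂ ⊆ M.E → Disjoint E₁ E₂ →
    C₁ ⊆ M.E \ E₁ → D₂ ⊆ M.E \ E₂ → Bic (M ／ C₁) E₁ e₁ → Grd E₁ e₁ x y n n →
    Bic (M✶ ／ D₂) E₂ e₂ → Grd E₂ e₂ x' y' n n →
    rk (M ／ (C₁ \ D₂)) E₁ ≤ rk (M ／ C₁) E₁ + q →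
    KGe M E₁ E₂ n₀ → HasUniformMinor M k := by
  obtain ⟨κ₀, hSP⟩ := thmSP.{u} k hk
  obtain ⟨KB, y₀, hBq⟩ := thmBq.{u} k hk
  set K := KB + (κ₀ + 32 * (κ₀ + 1) ^ 2 + 1) with hKdef
  obtain ⟨s₀, hs₀⟩ := hSP K
  set m := s₀ + y₀ + 4 * (K + 1) + 1 with hm
  obtain ⟨nB, hnB⟩ := hBq (q + (m * m) * (m * m))
  refine ⟨nB + m + (K + 32 * (K + 1) ^ 2 + 1), ?_⟩
  intro n hn α M _ E₁ E₂ C₁ D₂ e₁ e₂ x y x' y' hE₁ hE₂ hE hC₁ hD₂ hB₁ hG₁ hB₂ hG₂ hq hK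
  have hC₁E : C₁ ⊆ M.E := hC₁.trans sdiff_subset
  have hD₂E : D₂ ⊆ M.E := hD₂.trans sdiff_subset
  have hE₁C : E₁ ⊆ M.E \ C₁ := fun x hx => ⟨hE₁ hx, fun h => (hC₁ h).2 hx⟩
  have hrec : rect x' y' m m ⊆ rect x' y' n n :=
    rect_sub (le_refl _) (by omega) (le_refl _) (by omega)
  have hrec1 : rect x y m m ⊆ rect x y n n :=
    rect_sub (le_refl _) (by omega) (le_refl _) (by omega)
  set Y := blk E₂ e₂ x' y' m with hY
  have hYE₂ : Y ⊆ E₂ := blk_sub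
  have hYE : Y ⊆ M.E := hYE₂.trans hE₂
  have hYd : Disjoint E₁ Y := hE.mono_right hYE₂
  have fin1 : (M ／ C₁).Finite := BQ.fin_contract C₁
  have fin1' : (M✶ ／ D₂).Finite := BQ.fin_contract D₂
  -- start
  have k1 : KGe M✶ E₂ E₁ (K + 32 * (K + 1) ^ 2 + 1) :=
    BQ.KGe.mono_n (hK.dual hE₁) (by omega)
  have k2 : KGe M✶ Y E₁ (K + 1) := BQ.kge_blk (M := M✶) (by exact hD₂) (by exact hE₂)
    hE.symm hB₂ hG₂ hrec (by omega) k1
  have k3 : KGe M E₁ Y K := by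
    have := k2.dual (by exact hYE)
    rw [Matroid.dual_dual] at this
    exact BQ.KGe.mono_n this (by omega)
  set P := C₁ \ (D₂ ∪ Y) with hP
  have hPC : P ⊆ C₁ := sdiff_subset
  have hPE : P ⊆ M.E \ (E₁ ∪ Y) := by
    rintro z ⟨hz1, hz2⟩
    refine ⟨hC₁E hz1, ?_⟩
    rintro (hz3 | hz3)
    · exact (hC₁ hz1).2 hz3
    · exact hz2 (Or.inr hz3)
  -- the structures in every stage
  have stage : ∀ P' ⊆ P, (M ／ P').Finite ∧ E₁ ⊆ (M ／ P').E ∧ Y ⊆ (M ／ P').E ∧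
      C₁ \ P' ⊆ (M ／ P').E \ E₁ ∧ D₂ ⊆ (M ／ P').E \ Y ∧
      Bic (M ／ P' ／ (C₁ \ P')) E₁ e₁ ∧ Bic ((M ／ P')✶ ／ D₂) Y e₂ := by
    intro P' hP'
    have hP'C : P' ⊆ C₁ := hP'.trans hPC
    have fin2 : (M ／ P').Finite := BQ.fin_contract P'
    have c1 : M ／ P' ／ (C₁ \ P') = M ／ C₁ := by
      rw [Matroid.contract_contract, union_sdiff_self, union_eq_self_of_subset_left hP'C]
    have hE₁P : E₁ ⊆ (M ／ P').E := fun z hz => ⟨hE₁ hz, fun h => (hC₁ (hP'C h)).2 hz⟩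
    have hYP : Y ⊆ (M ／ P').E := fun z hz => ⟨hYE hz, fun h => (hP' h).2 (Or.inr hz)⟩
    refine ⟨fin2, hE₁P, hYP, ?_, ?_, ?_, ?_⟩
    · rintro z ⟨hz1, hz2⟩
      exact ⟨⟨hC₁E hz1, hz2⟩, (hC₁ hz1).2⟩
    · intro z hz
      exact ⟨⟨hD₂E hz, fun h => (hP' h).2 (Or.inl hz)⟩, fun h => (hD₂ hz).2 (hYE₂ h)⟩
    · rw [c1]; exact hB₁
    · have c2 : (M ／ P')✶ ／ D₂ = M✶ ／ D₂ ＼ P' := by
        rw [Matroid.dual_contract]
        have hdd : Disjoint D₂ P' := by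
          rw [Set.disjoint_left]
          exact fun z hz hz2 => (hP' hz2).2 (Or.inl hz)
        rw [Matroid.contract_delete_comm M✶ hdd]
      rw [c2]
      have fin3 : (M✶ ／ D₂ ＼ P').Finite := BQ.fin_delete P'
      have hY1 : Y ⊆ (M✶ ／ D₂).E \ P' := fun z hz =>
        ⟨⟨hYE hz, fun h => (hD₂ h).2 (hYE₂ hz)⟩, fun h => (hP' h).2 (Or.inr hz)⟩
      refine Bic_of_rk (Bic_sub hB₂ hYE₂) hY1 ?_
      intro X hX
      rw [rk_delete (hX.trans hY1)]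
  rcases cont hE₁ hYE hYd hPE k3 with ⟨P', hP', ka, kb⟩ | ka
  · -- sparse case
    obtain ⟨fin2, s1, s2, s3, s4, s5, s6⟩ := stage P' hP'
    set R := blk E₁ e₁ x y m with hR
    have hRE₁ : R ⊆ E₁ := blk_sub
    refine hum_mono (M' := M ／ P') ?_ (hs₀ m (by omega) m (by omega) (M ／ P') R Y (C₁ \ P') D₂ (hRE₁.trans s1) s2
      (hYd.mono_left hRE₁) ?_ s4 ?_ ?_ ?_ ?_)
    · have := Matroid.contract_delete_isMinor M P' ∅
      rwa [Matroid.delete_empty] at this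
    · exact fun z hz => ⟨(s3 hz).1, fun h => (s3 hz).2 (hRE₁ h)⟩
    · exact Grd.toPGrid (by omega) (Bic_sub s5 hRE₁) (Grd_sub hG₁ hrec1)
    · exact Grd.toPGrid (by omega) s6 (Grd_sub hG₂ hrec)
    · refine BQ.KGe.mono_n (BQ.kge_blk (t := κ₀) s3 s1 hYd s5 hG₁ hrec1 (by omega)
        (BQ.KGe.mono_n ka (by omega))) (by omega)
    · intro hcon
      exact kb (BQ.KGe.mono_left hcon hRE₁)
  · -- bounded defect
    obtain ⟨fin2, s1, s2, s3, s4, s5, s6⟩ := stage P (subset_refl _)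
    refine hum_mono (M' := M ／ P) ?_ (hnB n m (by omega) (by omega) (M ／ P) E₁ Y (C₁ \ P) D₂ e₁ e₂
      x y x' y' s1 s2 hYd s3 s4 s5 hG₁ s6 (Grd_sub hG₂ hrec) ?_ (BQ.KGe.mono_n ka (by omega)))
    · have := Matroid.contract_delete_isMinor M P ∅
      rwa [Matroid.delete_empty] at this
    · have c1 : M ／ P ／ (C₁ \ P) = M ／ C₁ := by
        rw [Matroid.contract_contract, union_sdiff_self, union_eq_self_of_subset_left hPC]
      rw [c1]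
      have hAE : C₁ \ D₂ ⊆ M.E := sdiff_subset.trans hC₁E
      have r1 := BQ.rk_con (M := M) (C := P) (X := E₁) (hPC.trans hC₁E)
        (fun z hz => ⟨hE₁ hz, fun h => (hC₁ (hPC h)).2 hz⟩)
      have r2 := BQ.rk_con (M := M) (C := C₁ \ D₂) (X := E₁) hAE
        (fun z hz => ⟨hE₁ hz, fun h => (hC₁ h.1).2 hz⟩)
      have hPA : P ⊆ C₁ \ D₂ := fun z hz => ⟨hz.1, fun h => hz.2 (Or.inl h)⟩
      have r3 : rk M (E₁ ∪ P) ≤ rk M (E₁ ∪ (C₁ \ D₂)) :=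
        rk_mono M (union_subset_union_right _ hPA)
      have r4 : rk M (C₁ \ D₂) ≤ rk M P + ((C₁ \ D₂) ∩ Y).ncard := by
        have hf : ((C₁ \ D₂) ∩ Y).Finite := M.ground_finite.subset (inter_subset_right.trans hYE)
        refine le_trans (rk_mono M ?_) (rk_union_le M hf)
        intro z hz
        by_cases hzY : z ∈ Y
        · exact Or.inr ⟨hz, hzY⟩
        · exact Or.inl ⟨hz.1, fun h => h.elim hz.2 hzY⟩
      have r5 : ((C₁ \ D₂) ∩ Y).ncard ≤ (m * m) * (m * m) :=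
        (Set.ncard_le_ncard inter_subset_right (M.ground_finite.subset hYE)).trans
          (blk_ncard_le hG₂.inj x' y' m)
      omega

end BICS
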