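import Pool.Agent.Helper77.G.Bco
import Pool.Agent.Helper77.G.LocTop
import Pool.Agent.Helper57.TB.StarP
import Pool.Agent.Helper57.TB.TopCo

/-!
# Theorem W-co: few elements deleted for `N₁` and contracted for `N₂` (helper53)
-/

open Set BIC
open scoped Matroid

namespace BICS

universe u

lemma SGrd.toGrdP {α : Type*} {E : Set α} {ends : α → Sym2 (ℕ × ℕ)} {w : ℕ × ℕ} {x y n : ℕ}
    (h : SGrd E ends x y n w) : GrdP E (ins E ends (rect x y n n)) ends w x y n where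
  sub := fun _ he => he.1
  grd := h.grd
  inj := h.inj
  out := h.nap
  star := by
    intro e he
    rcases h.out e he.1 with h1 | h1
    · exact absurd h1 he.2
    · exact h1
  all := by
    rcases h.star with h' | h'
    · left
      exact Subset.antisymm h' (fun _ he => he.1)
    · exact Or.inr h'

/-- **Theorem W-co.** -/
theorem thmWco_of {k : ℕ} (hk : 1 ≤ k) (hStar : StarStmt.{u} k) : WcoPlain.{u} k := by
  intro q
  obtain ⟨κ₀, hSP⟩ := thmSP.{u} k hk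
  obtain ⟨KB, y₀, hBco⟩ := thmBco_of hk hStar
  set K := KB + (κ₀ + 32 * (κ₀ + 1) ^ 2 + 1) with hKdef
  obtain ⟨s₀, hs₀⟩ := hSP K
  set m := s₀ + y₀ + 4 * (K + 1) + 1 with hm
  set qY := (m * m) * ((m + 2) * (m + 2) + 1) with hqY
  obtain ⟨nB, hnB⟩ := hBco (q + qY)
  refine ⟨nB + m + 2 + 2 * (2 * (K + 32 * (K + 1) ^ 2 + 1)), ?_⟩
  intro n hn α M _ E₁ E₂ C₁ D₂ e₁ e₂ x y x' y' ap ap' hE₁ hE₂ hE hC₁ hD₂ hB₁ hG₁' hB₂ hG₂' hq hK
  have hC₁E : C₁ ⊆ M.E := hC₁.trans sdiff_subset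
  have hD₂E : D₂ ⊆ M.E := hD₂.trans sdiff_subset
  have hE₁C : E₁ ⊆ M.E \ C₁ := fun x hx => ⟨hE₁ hx, fun h => (hC₁ h).2 hx⟩
  have hE₂D : E₂ ⊆ M✶.E \ D₂ := fun x hx => ⟨hE₂ hx, fun h => (hD₂ h).2 hx⟩
  set S₁ := ins E₁ e₁ (rect x y n n) with hS₁
  set S₂ := ins E₂ e₂ (rect x' y' n n) with hS₂
  have hG₁ : GrdP E₁ S₁ e₁ ap x y n := hG₁'.toGrdP
  have hG₂ : GrdP E₂ S₂ e₂ ap' x' y' n := hG₂'.toGrdP
  have hS₁E₁ : S₁ ⊆ E₁ := hG₁.sub
  have hS₂E₂ : S₂ ⊆ E₂ := hG₂.sub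
  have hS₁E : S₁ ⊆ M.E := hS₁E₁.trans hE₁
  have fin1 : (M ／ C₁).Finite := BQ.fin_contract C₁
  have fin1' : (M✶ ／ D₂).Finite := BQ.fin_contract D₂
  -- connectivity of the plain parts
  have k1 : KGe M S₁ E₂ (2 * (K + 32 * (K + 1) ^ 2 + 1)) :=
    star1P (by omega) hC₁E hE₁C hB₁ hG₁ hE (BQ.KGe.mono_n hK (by omega))
  have k2 : KGe M✶ S₂ S₁ (K + 32 * (K + 1) ^ 2 + 1) :=
    star1P (M := M✶) (by omega) (by exact hD₂E) hE₂D hB₂ hG₂ (hE.symm.mono_right hS₁E₁)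
      (k1.dual hS₁E)
  -- the block of side 2
  set σ := rect (x' + 1) (y' + 1) m m with hσ
  have hσn : σ ⊆ rect x' y' n n := rect_sub (by omega) (by omega) (by omega) (by omega)
  have hσn' : σ ⊆ rect (x' + 1) (y' + 1) (n - 2) (n - 2) :=
    rect_sub (by omega) (by omega) (by omega) (by omega)
  have hrec1 : rect x y m m ⊆ rect x y n n :=
    rect_sub (le_refl _) (by omega) (le_refl _) (by omega)
  set Y := pl E₂ e₂ σ with hY
  set Y' := blk S₂ e₂ (x' + 1) (y' + 1) m with hY'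
  set Fo := ins E₂ e₂ σᶜ with hFo
  have hYE₂ : Y ⊆ E₂ := pl_sub
  have hY'S₂ : Y' ⊆ S₂ := blk_sub
  have hY'E₂ : Y' ⊆ E₂ := hY'S₂.trans hS₂E₂
  have hY'E : Y' ⊆ M.E := hY'E₂.trans hE₂
  have hY'ins : Y' ⊆ ins E₂ e₂ σ := fun z hz => ⟨hY'E₂ hz, hz.2⟩
  have hY'Fo : Disjoint Y' Fo := by
    rw [Set.disjoint_left]
    rintro e he ⟨-, h2⟩
    have h1 := (hY'ins he).2
    induction h : e₂ e with
    | _ p q =>
      exact h2 p (by rw [h]; simp) (h1 p (by rw [h]; simp))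
  have hYFo : ∀ z ∈ E₂, z ∉ Y → z ∈ Fo := by
    intro z hz hzY
    exact ⟨hz, fun v hv hvσ => hzY ⟨hz, v, hvσ, hv⟩⟩
  have hYd : Disjoint S₁ Y' := hE.mono hS₁E₁ hY'E₂
  have hYd1 : Disjoint E₁ Y' := hE.mono_right hY'E₂
  have k3 : KGe M✶ Y' S₁ K := BQ.KGe.mono_n (BQ.kge_blk (M := M✶)
    (fun z hz => ⟨hD₂E hz, fun h => (hD₂ hz).2 (hS₂E₂ h)⟩) (by exact hS₂E₂.trans hE₂)
    (hE.symm.mono hS₂E₂ hS₁E₁) (Bic_sub hB₂ hS₂E₂) hG₂.grd hσn (by omega) k2) (by omega)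
  -- side 2 after contracting (in the dual) everything outside the block
  set F₂ := D₂ ∪ Fo with hF₂
  have hFoE : Fo ⊆ M.E := fun z hz => hE₂ hz.1
  have hF₂E : F₂ ⊆ M.E := union_subset hD₂E hFoE
  have hF₂Y' : Disjoint F₂ Y' := by
    rw [Set.disjoint_left]
    rintro z (hz | hz) hz'
    · exact (hD₂ hz).2 (hY'E₂ hz')
    · exact Set.disjoint_left.1 hY'Fo hz' hz
  have hBY : Bic (M✶ ／ F₂) Y' e₂ :=
    Bic_sub (bic_block (M := M✶) σ (by exact hD₂E) hE₂D hB₂) hY'ins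
  set P := F₂ \ (E₁ ∪ C₁) with hP
  have hPF : P ⊆ F₂ := sdiff_subset
  have hPE : P ⊆ M✶.E \ (Y' ∪ S₁) := by
    rintro z ⟨hz1, hz2⟩
    refine ⟨hF₂E hz1, ?_⟩
    rintro (hz3 | hz3)
    · exact Set.disjoint_left.1 hF₂Y' hz1 hz3
    · exact hz2 (Or.inl (hS₁E₁ hz3))
  -- the structures in every stage
  have stage : ∀ P' ⊆ P, (M ＼ P').Finite ∧ E₁ ⊆ (M ＼ P').E ∧ Y' ⊆ (M ＼ P').E ∧
      C₁ ⊆ (M ＼ P').E \ E₁ ∧ F₂ \ P' ⊆ (M ＼ P').E \ Y' ∧ (M ＼ P')✶ = M✶ ／ P' ∧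
      Bic (M ＼ P' ／ C₁) E₁ e₁ ∧ Bic ((M ＼ P')✶ ／ (F₂ \ P')) Y' e₂ ∧ M ＼ P' ≤m M := by
    intro P' hP'
    have fin2 : (M ＼ P').Finite := BQ.fin_delete P'
    have hE₁P : E₁ ⊆ (M ＼ P').E := fun z hz => ⟨hE₁ hz, fun h => (hP' h).2 (Or.inl hz)⟩
    have hYP : Y' ⊆ (M ＼ P').E := fun z hz =>
      ⟨hY'E hz, fun h => Set.disjoint_left.1 hF₂Y' (hPF (hP' h)) hz⟩
    have hdual : (M ＼ P')✶ = M✶ ／ P' := Matroid.dual_delete M P'
    refine ⟨fin2, hE₁P, hYP, ?_, ?_, hdual, ?_, ?_, ?_⟩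
    · exact fun z hz => ⟨⟨hC₁E hz, fun h => (hP' h).2 (Or.inr hz)⟩, (hC₁ hz).2⟩
    · rintro z ⟨hz1, hz2⟩
      exact ⟨⟨hF₂E hz1, hz2⟩, fun h => Set.disjoint_left.1 hF₂Y' hz1 h⟩
    · have hdd : Disjoint C₁ P' := by
        rw [Set.disjoint_left]
        exact fun z hz hz2 => (hP' hz2).2 (Or.inr hz)
      have c2 : M ＼ P' ／ C₁ = M ／ C₁ ＼ P' := by
        rw [Matroid.contract_delete_comm M hdd]
      rw [c2]
      have fin3 : (M ／ C₁ ＼ P').Finite := BQ.fin_delete P'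
      have hY1 : E₁ ⊆ (M ／ C₁).E \ P' := fun z hz => ⟨hE₁C hz, fun h => (hP' h).2 (Or.inl hz)⟩
      refine Bic_of_rk hB₁ hY1 ?_
      intro X hX
      rw [rk_delete (hX.trans hY1)]
    · rw [hdual, Matroid.contract_contract, union_sdiff_self,
        union_eq_self_of_subset_left (hP'.trans hPF)]
      exact hBY
    · have := Matroid.contract_delete_isMinor M ∅ P'
      rwa [Matroid.contract_empty] at this
  rcases cont (M := M✶) (X := Y') (Y := S₁) (by exact hY'E) (by exact hS₁E) hYd.symm hPE k3 with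
    ⟨P', hP', ka, kb⟩ | ka
  · -- sparse case
    obtain ⟨fin2, s1, s2, s3, s4, s5, s6, s7, s8⟩ := stage P' hP'
    rw [← s5] at ka kb
    have fin2' : (M ＼ P')✶.Finite := by infer_instance
    have ka' : KGe (M ＼ P') S₁ Y' K := by
      have := ka.dual (by exact s2)
      rwa [Matroid.dual_dual] at this
    set R := blk S₁ e₁ x y m with hR
    have hRS₁ : R ⊆ S₁ := blk_sub
    have hRE₁ : R ⊆ E₁ := hRS₁.trans hS₁E₁
    refine hum_mono s8 (hs₀ m (by omega) m (by omega) (M ＼ P') R Y' C₁ (F₂ \ P') (hRE₁.trans s1) s2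
      (hYd.mono_left hRS₁) ?_ s4 ?_ ?_ ?_ ?_)
    · exact fun z hz => ⟨(s3 hz).1, fun h => (s3 hz).2 (hRE₁ h)⟩
    · exact Grd.toPGrid (by omega) (Bic_sub s6 hRE₁) (Grd_sub hG₁.grd hrec1)
    · exact Grd.toPGrid (by omega) s7 (Grd_sub hG₂.grd hσn)
    · refine BQ.KGe.mono_n (BQ.kge_blk (t := κ₀) (C := C₁) (M := M ＼ P') ?_ (hS₁E₁.trans s1) hYd
        (Bic_sub s6 hS₁E₁) hG₁.grd hrec1 (by omega) (BQ.KGe.mono_n ka' (by omega))) (by omega)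
      exact fun z hz => ⟨(s3 hz).1, fun h => (s3 hz).2 (hS₁E₁ h)⟩
    · intro hcon
      exact kb ((BQ.KGe.mono_left hcon hRS₁).dual (hS₁E₁.trans s1))
  · -- bounded defect
    obtain ⟨fin2, s1, s2, s3, s4, s5, s6, s7, s8⟩ := stage P (subset_refl _)
    rw [← s5] at ka
    have fin2' : (M ＼ P)✶.Finite := by infer_instance
    have ka' : KGe (M ＼ P) S₁ Y' (K + 1) := by
      have := ka.dual (by exact s2)
      rwa [Matroid.dual_dual] at this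
    refine hum_mono s8 (hnB n m (by omega) (by omega) (M ＼ P) E₁ S₁ Y' C₁ (F₂ \ P) e₁ e₂ ap
      x y (x' + 1) (y' + 1) s1 s2 hYd1 s3 s4 s6 hG₁ s7 (Grd_sub hG₂.grd hσn) ?_
      (BQ.KGe.mono_n ka' (by omega)))
    set B := C₁ ∪ (M.E \ (E₁ ∪ C₁ ∪ (E₂ ∪ D₂))) with hBdef
    have hBE : B ⊆ M.E := union_subset hC₁E sdiff_subset
    set G := (M.E \ P) \ E₁ with hG
    have hGE : G ⊆ M.E := sdiff_subset.trans sdiff_subset
    have hYf : Y.Finite := M.ground_finite.subset (hYE₂.trans hE₂)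
    have hGB : G ⊆ B ∪ Y := by
      rintro z ⟨⟨hz1, hz2⟩, hz3⟩
      by_cases hc : z ∈ C₁
      · exact Or.inl (Or.inl hc)
      by_cases hzY : z ∈ Y
      · exact Or.inr hzY
      left; right
      refine ⟨hz1, ?_⟩
      rintro ((h | h) | (h | h))
      · exact hz3 h
      · exact hc h
      · exact hz2 ⟨Or.inr (hYFo z h hzY), fun h' => h'.elim hz3 hc⟩
      · exact hz2 ⟨Or.inl h, fun h' => h'.elim hz3 hc⟩
    have hYc : Y.ncard ≤ qY := pl_rect_ncard hG₂ hσn'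
    -- ranks
    have r1 : rk (M ＼ P ／ C₁) E₁ + rk (M ＼ P) C₁ = rk (M ＼ P) (E₁ ∪ C₁) :=
      BQ.rk_con (M := M ＼ P) (C := C₁) (X := E₁) (s3.trans sdiff_subset)
        (fun z hz => ⟨s1 hz, fun h => (s3 h).2 hz⟩)
    have r2 := BQ.rk_con (M := M ＼ P) (C := (M ＼ P).E \ E₁) (X := E₁) sdiff_subset
        (fun z hz => ⟨s1 hz, fun h => h.2 hz⟩)
    have r3 := BQ.rk_con (M := M) (C := C₁) (X := E₁) hC₁E hE₁C
    have hE₁B : E₁ ⊆ M.E \ B := by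
      intro z hz
      refine ⟨hE₁ hz, ?_⟩
      rintro (h | h)
      · exact (hC₁ h).2 hz
      · exact h.2 (Or.inl (Or.inl hz))
    have r4 := BQ.rk_con (M := M) (C := B) (X := E₁) hBE hE₁B
    have d1 : rk (M ＼ P) C₁ = rk M C₁ := rk_delete (s3.trans sdiff_subset)
    have d2 : rk (M ＼ P) (E₁ ∪ C₁) = rk M (E₁ ∪ C₁) :=
      rk_delete (union_subset s1 (s3.trans sdiff_subset))
    have hGeq : (M ＼ P).E \ E₁ = G := rfl
    rw [hGeq] at r2 ⊢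
    have d3 : rk (M ＼ P) G = rk M G := rk_delete sdiff_subset
    have d4 : rk (M ＼ P) (E₁ ∪ G) = rk M (E₁ ∪ G) :=
      rk_delete (union_subset s1 sdiff_subset)
    have t1 := rk_submod M (E₁ ∪ G) (B ∪ Y)
    have t2 : rk M G ≤ rk M ((E₁ ∪ G) ∩ (B ∪ Y)) :=
      rk_mono M (fun z hz => ⟨Or.inr hz, hGB hz⟩)
    have t3 : rk M (E₁ ∪ B) ≤ rk M ((E₁ ∪ G) ∪ (B ∪ Y)) :=
      rk_mono M (union_subset_union subset_union_left subset_union_left)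
    have t4 : rk M (B ∪ Y) ≤ rk M B + Y.ncard := rk_union_le M hYf
    omega

end BICS
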